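import Mathlib

namespace Pool.Agent.MP_41ddaf_co.H50

open Finset

/-- quantitative solvability of an edge-length system near an approximate solution -/
theorem exists_sol {V E : Type} [Fintype E] [DecidableEq E] (x : V → Fin 3 → ℝ)
    (B : V → Fin 3 → E → ℝ) (s t : E → V) (L : E → ℝ) (N ε : ℝ) (hε : 0 ≤ ε) (hN0 : 0 ≤ N)
    (hN : ∀ v k, ∑ e, |B v k e| ≤ N)
    (hJ : ∀ e, ∑ e', |2 * (∑ k, (x (s e) k - x (t e) k) * (B (s e) k e' - B (t e) k e')) -
      (if e = e' then 1 else 0)| ≤ 1 / 4)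
    (hq : 24 * N ^ 2 * ε ≤ 1 / 4)
    (hr : ∀ e, |L e - ∑ k, (x (s e) k - x (t e) k) ^ 2| ≤ ε / 2) :
    ∃ p : V → Fin 3 → ℝ, (∀ v k, |p v k - x v k| ≤ N * ε) ∧
      ∀ e, ∑ k, (p (s e) k - p (t e) k) ^ 2 = L e := by
  have hlin : ∀ (c : E → ℝ) (C : ℝ) (y : E → ℝ), ∑ e, |c e| ≤ C → |∑ e, c e * y e| ≤ C * ‖y‖ := by
    intro c C y hc
    calc |∑ e, c e * y e| ≤ ∑ e, |c e * y e| := Finset.abs_sum_le_sum_abs _ _
      _ ≤ ∑ e, |c e| * ‖y‖ := by
          refine Finset.sum_le_sum fun e _ => ?_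
          rw [abs_mul]
          exact mul_le_mul_of_nonneg_left (by simpa using norm_le_pi_norm y e) (abs_nonneg _)
      _ = (∑ e, |c e|) * ‖y‖ := by rw [Finset.sum_mul]
      _ ≤ C * ‖y‖ := mul_le_mul_of_nonneg_right hc (norm_nonneg _)
  let h : (E → ℝ) → V → Fin 3 → ℝ := fun y v k => ∑ e, B v k e * y e
  have hh : ∀ y v k, |h y v k| ≤ N * ‖y‖ := fun y v k => hlin _ _ y (hN v k)
  have hsub : ∀ y y' v k, h y v k - h y' v k = h (y - y') v k := by
    intro y y' v k
    simp only [h, Pi.sub_apply, mul_sub, Finset.sum_sub_distrib]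
  let g : (E → ℝ) → (E → ℝ) := fun y e =>
    ∑ k, (x (s e) k + h y (s e) k - (x (t e) k + h y (t e) k)) ^ 2
  have happ : ApproximatesLinearOn g (ContinuousLinearMap.id ℝ (E → ℝ))
      (Metric.closedBall 0 ε) (1 / 2 : NNReal) := by
    intro y hy y' hy'
    have hy1 : ‖y‖ ≤ ε := by simpa using hy
    have hy2 : ‖y'‖ ≤ ε := by simpa using hy'
    rw [pi_norm_le_iff_of_nonneg (by positivity)]
    intro e
    set z := y - y' with hz
    have key : (g y - g y' - (ContinuousLinearMap.id ℝ (E → ℝ)) z) e =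
        ∑ e', (2 * (∑ k, (x (s e) k - x (t e) k) * (B (s e) k e' - B (t e) k e')) -
          (if e = e' then 1 else 0)) * z e' +
        ∑ k, (h z (s e) k - h z (t e) k) *
          (h y (s e) k - h y (t e) k + (h y' (s e) k - h y' (t e) k)) := by
      have e1 : ∑ e', (2 * (∑ k, (x (s e) k - x (t e) k) * (B (s e) k e' - B (t e) k e')) -
          (if e = e' then 1 else 0)) * z e' =
          ∑ k, 2 * (x (s e) k - x (t e) k) * (h z (s e) k - h z (t e) k) - z e := by
        simp only [sub_mul, Finset.sum_sub_distrib, ite_mul, one_mul, zero_mul,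
          Finset.sum_ite_eq, Finset.mem_univ, if_true, h, Fin.sum_univ_three]
        simp only [← Finset.sum_sub_distrib, Finset.mul_sum, ← Finset.sum_add_distrib]
        congr 1
        refine Finset.sum_congr rfl fun e' _ => ?_
        ring
      rw [e1]
      simp only [g, Pi.sub_apply, ContinuousLinearMap.id_apply, Fin.sum_univ_three, hz,
        ← hsub]
      ring
    rw [key, Real.norm_eq_abs]
    have b1 := hlin _ _ z (hJ e)
    have b2 : ∀ k, |(h z (s e) k - h z (t e) k) *
          (h y (s e) k - h y (t e) k + (h y' (s e) k - h y' (t e) k))| ≤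
          (2 * (N * ‖z‖)) * (4 * (N * ε)) := by
      intro k
      rw [abs_mul]
      have a1 := abs_le.1 (hh z (s e) k)
      have a2 := abs_le.1 (hh z (t e) k)
      have a3 := abs_le.1 ((hh y (s e) k).trans (mul_le_mul_of_nonneg_left hy1 hN0))
      have a4 := abs_le.1 ((hh y (t e) k).trans (mul_le_mul_of_nonneg_left hy1 hN0))
      have a5 := abs_le.1 ((hh y' (s e) k).trans (mul_le_mul_of_nonneg_left hy2 hN0))
      have a6 := abs_le.1 ((hh y' (t e) k).trans (mul_le_mul_of_nonneg_left hy2 hN0))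
      refine mul_le_mul (abs_le.2 ⟨by linarith, by linarith⟩) (abs_le.2 ⟨by linarith, by linarith⟩)
        (abs_nonneg _) (by positivity)
    have b3 : |∑ k, (h z (s e) k - h z (t e) k) *
          (h y (s e) k - h y (t e) k + (h y' (s e) k - h y' (t e) k))| ≤
          (24 * N ^ 2 * ε) * ‖z‖ := by
      refine (Finset.abs_sum_le_sum_abs _ _).trans ?_
      rw [Fin.sum_univ_three]
      have := b2 0
      have := b2 1
      have := b2 2
      nlinarith
    have b4 : (24 * N ^ 2 * ε) * ‖z‖ ≤ 1 / 4 * ‖z‖ := mul_le_mul_of_nonneg_right hq (norm_nonneg _)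
    have b5 := abs_add_le (∑ e', (2 * (∑ k, (x (s e) k - x (t e) k) *
          (B (s e) k e' - B (t e) k e')) - (if e = e' then 1 else 0)) * z e')
        (∑ k, (h z (s e) k - h z (t e) k) *
          (h y (s e) k - h y (t e) k + (h y' (s e) k - h y' (t e) k)))
    push_cast
    linarith
  let R : (ContinuousLinearMap.id ℝ (E → ℝ)).NonlinearRightInverse :=
    ⟨fun y => y, 1, fun y => by simp, fun y => rfl⟩
  have hsurj := happ.surjOn_closedBall_of_nonlinearRightInverse R hε (subset_refl _)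
  have hL : L ∈ Metric.closedBall (g 0) ((((R.nnnorm : ℝ))⁻¹ - ((1 / 2 : NNReal) : ℝ)) * ε) := by
    have : (((R.nnnorm : ℝ))⁻¹ - ((1 / 2 : NNReal) : ℝ)) * ε = ε / 2 := by
      simp only [R]; push_cast; ring
    rw [this, Metric.mem_closedBall, dist_eq_norm, pi_norm_le_iff_of_nonneg (by positivity)]
    intro e
    have := hr e
    simpa [g, h] using this
  obtain ⟨y, hy, hgy⟩ := hsurj hL
  have hy1 : ‖y‖ ≤ ε := by simpa using hy
  refine ⟨fun v k => x v k + h y v k, fun v k => ?_, fun e => ?_⟩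
  · simpa using (hh y v k).trans (mul_le_mul_of_nonneg_left hy1 hN0)
  · exact congrFun hgy e

end Pool.Agent.MP_41ddaf_co.H50
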