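import Pool.Agent.MP_41ddaf_co.H50.Geom
import Pool.Agent.MP_41ddaf_co.H50.Exist

namespace Pool.Agent.MP_41ddaf_co.H50

open Finset

def X0 : Fin 9 → Fin 3 → ℤ :=
  ![![133089, 6836, 127264],
    ![137303, -14060, -95324],
    ![-53247, 129356, 143630],
    ![-85425, 126769, -118969],
    ![-67230, -130125, 93888],
    ![-54911, -114252, -150236],
    ![97324, 218042, -28018],
    ![-222300, 9314, 13203],
    ![115399, -231880, 14562]]

def B0 : Fin 9 → Fin 3 → Fin 21 → ℤ :=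
  ![![![-140, 1060, 989, 219, 181, -42, -69, -75, -76, 129, -773, -375, 290, 98, 63, -94, -19, 160, -442, -9, 147],
      ![56, -359, 392, -636, 629, -97, 85, 184, -190, -68, -53, 298, 48, 17, -59, -28, 33, -65, -315, 23, 71],
      ![981, -1, 27, 761, 586, -26, 71, -661, -670, 63, -81, -306, -20, 80, 209, 4, -58, -43, -214, 33, 232]],
    ![![158, -51, -24, -237, -243, 934, 1000, 305, 465, -136, 96, 221, 33, -777, -471, 113, 27, -30, 200, 216, -519],
      ![-107, -152, 127, 237, -197, -309, 390, -647, 728, -1, 7, -85, -54, 10, 259, 59, 81, 58, 69, -61, -325],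
      ![-1244, -41, 33, 671, 656, 13, 62, -575, -746, 52, -70, -259, -16, 64, 169, -1, -62, -58, -238, 46, 256]],
    ![![-195, -945, 307, 475, -110, -10, -72, -123, 25, 170, -81, -645, 540, 57, 80, -183, -1, -113, -111, 79, 58],
      ![91, 657, -628, -100, 272, -40, 76, -8, -132, -112, 977, -243, 363, -35, 67, -87, 57, -455, 163, 132, -34],
      ![90, 116, -111, -332, -50, -82, 94, 229, 45, 850, 88, 675, 470, 6, -549, -568, -38, -235, -24, 216, 11]],
    ![![42, -15, -48, -237, -66, -795, 408, 508, -22, -48, 81, 203, -97, -142, -710, 523, 20, 86, 126, -87, -150],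
      ![-71, -86, 70, 83, -36, 507, -549, -204, 90, -42, 9, 26, -164, 1008, -223, 597, 74, 207, -16, -508, 222],
      ![63, 9, -74, -247, -52, 8, 42, 154, 49, -1028, 77, 568, 553, 20, -450, -661, -40, -266, -51, 243, 34]],
    ![![-6, 401, -830, 7, 561, -79, -61, -85, -253, 54, -187, -125, -5, 151, 83, 19, -87, 450, -850, -91, 286],
      ![98, 612, -578, -126, 261, -67, 103, 18, -161, 62, -917, -142, 515, -31, -43, -261, -181, -647, 87, 300, 73],
      ![-1, -29, -52, -64, -179, 75, -51, 80, 273, -23, -53, 1, -167, -44, 26, 283, 1229, 609, 578, -613, -613]],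
    ![![-200, -72, 10, 44, -85, 402, -973, -75, 477, -23, 66, 55, 80, -170, -177, -148, 175, -221, 52, 540, -565],
      ![-91, -80, 64, 92, -15, 640, -699, -266, 117, -167, 15, 78, -44, -1051, -214, 386, 190, 53, -111, -316, 257],
      ![-23, -98, 33, -48, -230, 145, -149, 62, 328, -42, 20, 25, -199, -127, 2, 316, -782, 620, 611, -622, -644]],
    ![![215, -99, -91, -300, -76, -155, -27, -339, -191, -606, 181, 799, 143, 197, 1183, 418, 14, -3, 86, -136, 66],
      ![-500, -280, 143, 608, 60, -381, 177, 1058, 366, -116, 49, 161, -18, 134, 419, 96, 66, 15, -33, -84, -140],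
      ![144, 373, -62, -647, -129, -386, 187, 590, 113, 168, -162, -764, -75, 216, 600, 53, -20, 104, 48, -84, -37]],
    ![![-84, -173, -163, 91, 100, -144, -116, 48, 14, 445, 397, -164, -821, 344, -155, -654, 388, -789, -240, -557, -38],
      ![19, -111, 97, 31, -124, -99, 130, 78, -38, 481, -16, -186, -671, -14, -280, -779, -422, 872, 391, 528, 84],
      ![13, -178, -169, 46, 42, 145, 102, -72, -28, -52, 382, 0, -647, -385, 74, 680, -101, -581, -68, 676, 27]],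
    ![![211, -106, -149, -62, -261, -113, -90, -165, -440, 15, 220, 32, -162, 241, 103, 5, -518, 461, 1180, 45, 715],
      ![504, -202, 312, -190, -851, -155, 288, -212, -780, -36, -71, 95, 24, -38, 75, 17, 102, -37, -233, -14, -208],
      ![-23, -151, 374, -140, -645, 109, -357, 193, 636, 12, -200, 60, 100, 172, -81, -106, -128, -149, -642, 104, 734]]]

def src : Fin 21 → Fin 9 := ![0, 0, 0, 0, 0, 1, 1, 1, 1, 2, 2, 2, 2, 3, 3, 3, 4, 4, 4, 5, 5]

def tgt : Fin 21 → Fin 9 := ![1, 2, 4, 6, 8, 3, 5, 6, 8, 3, 4, 6, 7, 5, 6, 7, 5, 7, 8, 7, 8]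

def len : Fin 21 → ℤ := ![5, 5, 6, 7, 7, 7, 5, 6, 6, 7, 7, 6, 6, 6, 5, 5, 6, 5, 5, 7, 7]

def f1 : Fin 14 → Fin 9 := ![1, 1, 0, 2, 4, 5, 6, 1, 6, 7, 7, 3, 4, 4]

def f2 : Fin 14 → Fin 9 := ![0, 0, 2, 0, 8, 1, 3, 5, 3, 3, 4, 7, 7, 8]

def f3 : Fin 14 → Fin 9 := ![6, 8, 4, 6, 0, 3, 1, 8, 2, 2, 2, 5, 5, 5]

def dX (i j : Fin 9) : Fin 3 → ℤ := fun k => X0 i k - X0 j k

def D0 (i j k m : Fin 9) : ℤ := det3 (dX j i) (dX k i) (dX m i)

def Q0 (i j : Fin 9) : ℤ := ∑ k, (X0 i k - X0 j k) ^ 2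

theorem chk_N : ∀ v k, ∑ e, |B0 v k e| ≤ 10000 := by decide +kernel

theorem chk_J : ∀ e, ∑ e', |2 * (∑ k, (X0 (src e) k - X0 (tgt e) k) *
    (B0 (src e) k e' - B0 (tgt e) k e')) - (if e = e' then 1000000000 else 0)| ≤ 250000000 := by
  decide +kernel

theorem chk_r : ∀ e, |len e * 10000000000 - ∑ k, (X0 (src e) k - X0 (tgt e) k) ^ 2| ≤ 500000 := by
  decide +kernel

theorem chk_M : ∀ i j k, |X0 i k - X0 j k| ≤ 499980 := by decide +kernel

theorem chk_X : ∀ i k, |X0 i k| ≤ 500000 := by decide +kernel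

theorem chk_face : ∀ f m, m ≠ f1 f → m ≠ f2 f → m ≠ f3 f →
    100000000000000 < |D0 (f1 f) (f2 f) (f3 f) m| := by decide +kernel

theorem chk_non : ∀ i j k : Fin 9, i ≠ j → i ≠ k → j ≠ k →
    (∃ f, ({i, j, k} : Finset (Fin 9)) = {f1 f, f2 f, f3 f}) ∨
    ((∃ m, 100000000000000 < D0 i j k m) ∧ ∃ m, D0 i j k m < -100000000000000) := by
  decide +kernel

theorem chk_edge : ∀ f,
    (∃ e, len e = 5 ∧ ((src e = f1 f ∧ tgt e = f2 f) ∨ (src e = f2 f ∧ tgt e = f1 f))) ∧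
    (∃ e, len e = 6 ∧ ((src e = f1 f ∧ tgt e = f3 f) ∨ (src e = f3 f ∧ tgt e = f1 f))) ∧
    (∃ e, len e = 7 ∧ ((src e = f2 f ∧ tgt e = f3 f) ∨ (src e = f3 f ∧ tgt e = f2 f))) := by
  decide +kernel

theorem chk_exp : ∀ i j, j ≠ i → 1000000000 < ∑ k, X0 i k * (X0 i k - X0 j k) := by
  decide +kernel

theorem chk_sig : ∀ i i', i ≠ i' → ∃ j, ∀ j', 1000000000 < |Q0 i' j' - Q0 i j| := by
  decide +kernel

end Pool.Agent.MP_41ddaf_co.H50
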