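import Mathlib

namespace Pool.Agent.MP_41ddaf_co.H50

open Finset

abbrev E3 := EuclideanSpace ℝ (Fin 3)

def det3 {R : Type} [CommRing R] (u v w : Fin 3 → R) : R :=
  u 0 * v 1 * w 2 - u 0 * v 2 * w 1 - u 1 * v 0 * w 2 + u 1 * v 2 * w 0 + u 2 * v 0 * w 1 -
    u 2 * v 1 * w 0

def detE (u v w : E3) : ℝ := det3 u.ofLp v.ofLp w.ofLp

theorem lin_expand (l : E3 →L[ℝ] ℝ) (x : E3) :
    l x = x 0 * l (EuclideanSpace.single 0 1) + x 1 * l (EuclideanSpace.single 1 1) +
      x 2 * l (EuclideanSpace.single 2 1) := by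
  have : x = x 0 • EuclideanSpace.single (0 : Fin 3) (1 : ℝ) +
      x 1 • EuclideanSpace.single (1 : Fin 3) (1 : ℝ) +
      x 2 • EuclideanSpace.single (2 : Fin 3) (1 : ℝ) := by
    ext i
    fin_cases i <;> simp
  conv_lhs => rw [this]
  simp only [map_add, map_smul, smul_eq_mul]

theorem cramer (l : E3 →L[ℝ] ℝ) (u v w z : E3) :
    detE u v w * l z = detE z v w * l u + detE u z w * l v + detE u v z * l w := by
  rw [lin_expand l u, lin_expand l v, lin_expand l w, lin_expand l z]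
  simp only [detE, det3]
  ring

theorem span_top (u v w : E3) (h : detE u v w ≠ 0) (W : Submodule ℝ E3) (hu : u ∈ W) (hv : v ∈ W)
    (hw : w ∈ W) : W = ⊤ := by
  rw [eq_top_iff]
  intro z _
  have : z = (detE z v w / detE u v w) • u + (detE u z w / detE u v w) • v +
      (detE u v z / detE u v w) • w := by
    ext i
    have := cramer (EuclideanSpace.proj i) u v w z
    simp only [EuclideanSpace.coe_proj] at this
    simp only [PiLp.add_apply, PiLp.smul_apply, smul_eq_mul]
    field_simp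
    linarith
  rw [this]
  exact W.add_mem (W.add_mem (W.smul_mem _ hu) (W.smul_mem _ hv)) (W.smul_mem _ hw)

/-- an exposed face of the convex hull of finitely many points is the hull of the maximisers -/
theorem face_eq {ι : Type} [Fintype ι] (p : ι → E3) (l : E3 →L[ℝ] ℝ) :
    {x | x ∈ convexHull ℝ (Set.range p) ∧ ∀ y ∈ convexHull ℝ (Set.range p), l y ≤ l x} =
      convexHull ℝ (p '' {i | ∀ j, l (p j) ≤ l (p i)}) := by
  classical
  apply Set.Subset.antisymm
  · rintro x ⟨hx, hmax⟩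
    rw [convexHull_range_eq_exists_affineCombination] at hx
    obtain ⟨s, w, hw0, hw1, rfl⟩ := hx
    rw [Finset.affineCombination_eq_linear_combination _ _ _ hw1] at hmax ⊢
    have hle : ∀ j, l (p j) ≤ l (∑ i ∈ s, w i • p i) := fun j =>
      hmax _ (subset_convexHull ℝ _ ⟨j, rfl⟩)
    have hsum : ∑ i ∈ s, w i * (l (∑ i ∈ s, w i • p i) - l (p i)) = 0 := by
      simp only [mul_sub, Finset.sum_sub_distrib, ← Finset.sum_mul, hw1, one_mul]
      rw [map_sum]
      simp
    have hz := (Finset.sum_eq_zero_iff_of_nonneg (fun i hi =>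
      mul_nonneg (hw0 i hi) (sub_nonneg.2 (hle i)))).1 hsum
    have : ∑ i ∈ s, w i • p i = ∑ i ∈ s.filter (fun i => w i ≠ 0), w i • p i := by
      rw [Finset.sum_filter_of_ne]
      intro i _ h hw
      exact h (by rw [hw, zero_smul])
    rw [this]
    refine (convex_convexHull ℝ _).sum_mem (fun i hi => hw0 i (Finset.mem_filter.1 hi).1) ?_ ?_
    · rw [Finset.sum_filter_ne_zero, hw1]
    · intro i hi
      obtain ⟨hi1, hi2⟩ := Finset.mem_filter.1 hi
      refine subset_convexHull ℝ _ ⟨i, fun j => ?_, rfl⟩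
      have := (mul_eq_zero.1 (hz i hi1)).resolve_left hi2
      have := hle j
      linarith
  · refine convexHull_min ?_ ?_
    · rintro _ ⟨i, hi, rfl⟩
      refine ⟨subset_convexHull ℝ _ ⟨i, rfl⟩, ?_⟩
      intro y hy
      have : convexHull ℝ (Set.range p) ⊆ {y | l y ≤ l (p i)} := by
        refine convexHull_min ?_ (convex_halfSpace_le (l : E3 →ₗ[ℝ] ℝ).isLinear _)
        rintro _ ⟨j, rfl⟩
        exact hi j
      exact this hy
    · rintro x ⟨hx, hx'⟩ y ⟨hy, hy'⟩ a b ha hb hab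
      refine ⟨convex_convexHull ℝ _ hx hy ha hb hab, fun z hz => ?_⟩
      have h1 := hx' z hz
      have h2 := hy' z hz
      simp only [map_add, map_smul, smul_eq_mul]
      have : l z = a * l z + b * l z := by rw [← add_mul, hab, one_mul]
      nlinarith [mul_le_mul_of_nonneg_left h1 ha, mul_le_mul_of_nonneg_left h2 hb]

/-- congruent triangles are related by an isometry of space -/
theorem exists_iso (a1 a2 a3 b1 b2 b3 : E3) (h12 : dist a1 a2 = dist b1 b2)
    (h13 : dist a1 a3 = dist b1 b3) (h23 : dist a2 a3 = dist b2 b3) :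
    ∃ φ : E3 ≃ᵃⁱ[ℝ] E3, φ a1 = b1 ∧ φ a2 = b2 ∧ φ a3 = b3 := by
  set u := a2 - a1
  set v := a3 - a1
  set u' := b2 - b1
  set v' := b3 - b1
  have hu : ‖u‖ = ‖u'‖ := by
    rw [← dist_eq_norm, ← dist_eq_norm, dist_comm a2, dist_comm b2, h12]
  have hv : ‖v‖ = ‖v'‖ := by
    rw [← dist_eq_norm, ← dist_eq_norm, dist_comm a3, dist_comm b3, h13]
  have huv : ‖u - v‖ = ‖u' - v'‖ := by
    have e1 : u - v = a2 - a3 := by simp [u, v]
    have e2 : u' - v' = b2 - b3 := by simp [u', v']
    rw [e1, e2, ← dist_eq_norm, ← dist_eq_norm, h23]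
  have hin : inner ℝ u v = inner ℝ u' v' := by
    have e1 := norm_sub_sq_real u v
    have e2 := norm_sub_sq_real u' v'
    rw [hu, hv, huv] at e1
    linarith
  let R1 := (ℝ ∙ (u - u'))ᗮ.reflection
  have r1 : R1 u = u' := Submodule.reflection_sub hu
  let R2 := (ℝ ∙ (R1 v - v'))ᗮ.reflection
  have r2 : R2 (R1 v) = v' := Submodule.reflection_sub (by rw [R1.norm_map, hv])
  have r3 : R2 u' = u' := by
    apply Submodule.reflection_mem_subspace_eq_self
    rw [Submodule.mem_orthogonal_singleton_iff_inner_right, inner_sub_left, ← r1,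
      R1.inner_map_map, r1, real_inner_comm, hin, real_inner_comm, sub_self]
  refine ⟨(AffineIsometryEquiv.vaddConst ℝ a1).symm.trans
    ((R1.trans R2).toAffineIsometryEquiv.trans (AffineIsometryEquiv.vaddConst ℝ b1)), ?_, ?_, ?_⟩
  · simp
  · have : R2 (R1 (a2 - a1)) = b2 - b1 := by
      change R2 (R1 u) = u'
      rw [r1, r3]
    change R2 (R1 (a2 - a1)) + b1 = b2
    rw [this, sub_add_cancel]
  · have : R2 (R1 (a3 - a1)) = b3 - b1 := r2
    change R2 (R1 (a3 - a1)) + b1 = b3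
    rw [this, sub_add_cancel]

theorem main_geom {ι κ : Type} [Fintype ι] [DecidableEq ι] (p : ι → E3) (f1 f2 f3 : κ → ι)
    (k0 : κ) (m0 : ι) (hm0 : m0 ≠ f1 k0 ∧ m0 ≠ f2 k0 ∧ m0 ≠ f3 k0)
    (hface : ∀ f m, m ≠ f1 f → m ≠ f2 f → m ≠ f3 f →
      detE (p (f2 f) - p (f1 f)) (p (f3 f) - p (f1 f)) (p m - p (f1 f)) ≠ 0)
    (hnon : ∀ i j k, i ≠ j → i ≠ k → j ≠ k →
      (∃ f, ({i, j, k} : Finset ι) = {f1 f, f2 f, f3 f}) ∨
      ((∃ m, 0 < detE (p j - p i) (p k - p i) (p m - p i)) ∧
        ∃ m, detE (p j - p i) (p k - p i) (p m - p i) < 0))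
    (hcong : ∀ f g, dist (p (f1 f)) (p (f2 f)) = dist (p (f1 g)) (p (f2 g)) ∧
      dist (p (f1 f)) (p (f3 f)) = dist (p (f1 g)) (p (f3 g)) ∧
      dist (p (f2 f)) (p (f3 f)) = dist (p (f2 g)) (p (f3 g)))
    (hexp : ∀ i, ∃ l : E3 →L[ℝ] ℝ, ∀ j, j ≠ i → l (p j) < l (p i))
    (hsig : ∀ i i', i ≠ i' → ∃ j, ∀ j', dist (p i') (p j') ≠ dist (p i) (p j)) :
    (interior (convexHull ℝ (Set.range p))).Nonempty ∧
    (∀ F G : Set E3,
      (∃ l : E3 →L[ℝ] ℝ, F = {x | x ∈ convexHull ℝ (Set.range p) ∧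
        ∀ y ∈ convexHull ℝ (Set.range p), l y ≤ l x}) →
      Module.finrank ℝ (vectorSpan ℝ F) = 2 →
      (∃ l : E3 →L[ℝ] ℝ, G = {x | x ∈ convexHull ℝ (Set.range p) ∧
        ∀ y ∈ convexHull ℝ (Set.range p), l y ≤ l x}) →
      Module.finrank ℝ (vectorSpan ℝ G) = 2 →
      ∃ φ : E3 ≃ᵢ E3, φ '' F = G) ∧
    ∀ φ : E3 ≃ᵢ E3, φ '' convexHull ℝ (Set.range p) = convexHull ℝ (Set.range p) →
      φ = IsometryEquiv.refl E3 := by
  classical
  have hd0 := hface k0 m0 hm0.1 hm0.2.1 hm0.2.2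
  have hvs : vectorSpan ℝ (Set.range p) = ⊤ :=
    span_top _ _ _ hd0 _ (vsub_mem_vectorSpan ℝ ⟨_, rfl⟩ ⟨_, rfl⟩)
      (vsub_mem_vectorSpan ℝ ⟨_, rfl⟩ ⟨_, rfl⟩) (vsub_mem_vectorSpan ℝ ⟨_, rfl⟩ ⟨_, rfl⟩)
  have has : affineSpan ℝ (Set.range p) = ⊤ := by
    rw [AffineSubspace.affineSpan_eq_top_iff_vectorSpan_eq_top_of_nonempty ℝ E3 E3
      (show (Set.range p).Nonempty from ⟨_, m0, rfl⟩)]
    exact hvs
  have hvc : ∀ A : Set E3, vectorSpan ℝ (convexHull ℝ A) = vectorSpan ℝ A := by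
    intro A
    rw [← direction_affineSpan, affineSpan_convexHull, direction_affineSpan]
  -- classification of the two-dimensional faces
  have hclass : ∀ F : Set E3, (∃ l : E3 →L[ℝ] ℝ, F = {x | x ∈ convexHull ℝ (Set.range p) ∧
        ∀ y ∈ convexHull ℝ (Set.range p), l y ≤ l x}) →
      Module.finrank ℝ (vectorSpan ℝ F) = 2 →
      ∃ f, F = convexHull ℝ {p (f1 f), p (f2 f), p (f3 f)} := by
    rintro F ⟨l, rfl⟩ hdim
    rw [face_eq] at hdim ⊢
    rw [hvc] at hdim
    set W : Finset ι := univ.filter (fun i => ∀ j, l (p j) ≤ l (p i)) with hW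
    have hWs : {i | ∀ j, l (p j) ≤ l (p i)} = (W : Set ι) := by
      ext i; simp [hW]
    have hmem : ∀ i, i ∈ W ↔ ∀ j, l (p j) ≤ l (p i) := by intro i; simp [hW]
    rw [hWs] at hdim ⊢
    -- the functional is not killed by a basis
    have hne : ∀ u v w : E3, detE u v w ≠ 0 → l u = 0 → l v = 0 → l w = 0 → False := by
      intro u v w hd hu hv hw
      have hl : ∀ z, l z = 0 := by
        intro z
        have := cramer l u v w z
        rw [hu, hv, hw] at this
        simpa [hd] using this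
      have : (W : Set ι) = Set.univ := by
        ext i; simp [hW, hl]
      rw [this, Set.image_univ, hvs] at hdim
      simp at hdim
    have h3 : 2 < W.card := by
      by_contra hc
      obtain ⟨i0, -, hi0⟩ := Finset.exists_max_image univ (fun i => l (p i)) ⟨m0, mem_univ _⟩
      have hpos : 0 < W.card := Finset.card_pos.2 ⟨i0, (hmem i0).2 fun j => hi0 j (mem_univ _)⟩
      obtain ⟨n, hn⟩ : ∃ n, W.card = n + 1 := ⟨W.card - 1, by omega⟩
      have := finrank_vectorSpan_image_finset_le ℝ p W hn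
      rw [Finset.coe_image, hdim] at this
      omega
    obtain ⟨i, j, k, hi, hj, hk, hij, hik, hjk⟩ := Finset.two_lt_card_iff.1 h3
    have heq : ∀ a b, a ∈ W → b ∈ W → l (p a - p b) = 0 := by
      intro a b ha hb
      rw [map_sub, sub_eq_zero]
      exact le_antisymm ((hmem b).1 hb a) ((hmem a).1 ha b)
    rcases hnon i j k hij hik hjk with ⟨f, hf⟩ | ⟨⟨m, hm⟩, ⟨m', hm'⟩⟩
    · have hsub : ({f1 f, f2 f, f3 f} : Finset ι) ⊆ W := by
        rw [← hf]
        intro a ha
        simp only [Finset.mem_insert, Finset.mem_singleton] at ha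
        rcases ha with rfl | rfl | rfl <;> assumption
      have g1 : f1 f ∈ W := hsub (by simp)
      have g2 : f2 f ∈ W := hsub (by simp)
      have g3 : f3 f ∈ W := hsub (by simp)
      have hWeq : W = {f1 f, f2 f, f3 f} := by
        refine Finset.Subset.antisymm ?_ hsub
        intro m hm
        by_contra hc
        simp only [Finset.mem_insert, Finset.mem_singleton, not_or] at hc
        exact hne _ _ _ (hface f m hc.1 hc.2.1 hc.2.2) (heq _ _ g2 g1) (heq _ _ g3 g1)
          (heq _ _ hm g1)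
      refine ⟨f, ?_⟩
      rw [hWeq]
      simp [Set.image_insert_eq]
    · exfalso
      have c := cramer l (p j - p i) (p k - p i) (p m - p i) (p m' - p i)
      rw [heq _ _ hj hi, heq _ _ hk hi] at c
      have n1 : l (p m - p i) ≤ 0 := by rw [map_sub, sub_nonpos]; exact (hmem i).1 hi m
      have n2 : l (p m' - p i) ≤ 0 := by rw [map_sub, sub_nonpos]; exact (hmem i).1 hi m'
      have n3 : l (p m - p i) = 0 := by
        by_contra hc
        have n4 : l (p m - p i) < 0 := lt_of_le_of_ne n1 hc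
        nlinarith [mul_pos_of_neg_of_neg hm' n4, mul_nonneg hm.le (neg_nonneg.2 n2)]
      exact hne _ _ _ hm.ne' (heq _ _ hj hi) (heq _ _ hk hi) n3
  refine ⟨interior_convexHull_nonempty_iff_affineSpan_eq_top.2 has, ?_, ?_⟩
  · intro F G hF hFd hG hGd
    obtain ⟨f, rfl⟩ := hclass F hF hFd
    obtain ⟨g, rfl⟩ := hclass G hG hGd
    obtain ⟨φ, e1, e2, e3⟩ := exists_iso _ _ _ _ _ _ (hcong f g).1 (hcong f g).2.1 (hcong f g).2.2
    refine ⟨φ.toIsometryEquiv, ?_⟩
    have := φ.toAffineEquiv.toAffineMap.image_convexHull {p (f1 f), p (f2 f), p (f3 f)}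
    simp only [Set.image_insert_eq, Set.image_singleton] at this
    change φ '' _ = convexHull ℝ {φ _, φ _, φ _} at this
    rw [e1, e2, e3] at this
    exact this
  · intro φ hφ
    let ψ := φ.toRealAffineIsometryEquiv
    have hψ : ∀ x, ψ x = φ x := fun x => rfl
    have hext : ∀ i, φ (p i) ∈ (convexHull ℝ (Set.range p)).extremePoints ℝ := by
      intro i
      obtain ⟨l, hl⟩ := hexp i
      have hF := face_eq p l
      have hi : {i' | ∀ j, l (p j) ≤ l (p i')} = {i} := by
        ext i'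
        simp only [Set.mem_ofPred_eq, Set.mem_singleton_iff]
        constructor
        · intro h
          by_contra hc
          exact absurd (h i) (not_le.2 (hl i' hc))
        · rintro rfl j
          by_cases hj : j = i'
          · rw [hj]
          · exact (hl j hj).le
      rw [hi, Set.image_singleton, convexHull_singleton] at hF
      have hpi : p i ∈ {x | x ∈ convexHull ℝ (Set.range p) ∧
        ∀ y ∈ convexHull ℝ (Set.range p), l y ≤ l x} := by rw [hF]; rfl
      refine ⟨hφ ▸ ⟨p i, hpi.1, rfl⟩, ?_⟩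
      intro x hx y hy hxy
      rw [← hφ] at hx hy
      obtain ⟨x', hx', rfl⟩ := hx
      obtain ⟨y', hy', rfl⟩ := hy
      rw [openSegment_eq_image_lineMap] at hxy
      obtain ⟨t, ⟨ht0, ht1⟩, ht⟩ := hxy
      have h1 : φ (AffineMap.lineMap x' y' t) = AffineMap.lineMap (φ x') (φ y') t :=
        AffineMap.apply_lineMap ψ.toAffineEquiv.toAffineMap x' y' t
      have h2 : AffineMap.lineMap x' y' t = p i := φ.injective (h1.trans ht)
      have h3 : l (p i) = (1 - t) * l x' + t * l y' := by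
        rw [← h2, AffineMap.lineMap_apply_module]
        simp
      have h4 := hpi.2 x' hx'
      have h5 := hpi.2 y' hy'
      have h6 : l x' = l (p i) := by nlinarith
      have h7 : x' ∈ {x | x ∈ convexHull ℝ (Set.range p) ∧
        ∀ y ∈ convexHull ℝ (Set.range p), l y ≤ l x} := ⟨hx', fun y hy => h6 ▸ hpi.2 y hy⟩
      rw [hF] at h7
      rw [Set.mem_singleton_iff.1 h7]
    choose σ hσ using fun i => extremePoints_convexHull_subset (hext i)
    have hfix : ∀ i, φ (p i) = p i := by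
      intro i
      by_contra hc
      have hi : i ≠ σ i := by
        intro h
        exact hc (by rw [← hσ i, ← h])
      obtain ⟨j, hj⟩ := hsig i (σ i) hi
      apply hj (σ j)
      rw [hσ, hσ, φ.dist_eq]
    have : ψ.toAffineEquiv.toAffineMap = AffineMap.id ℝ E3 := by
      refine AffineMap.ext_on has ?_
      rintro _ ⟨i, rfl⟩
      exact hfix i
    ext x : 1
    exact congrArg (fun g : E3 →ᵃ[ℝ] E3 => g x) this

end Pool.Agent.MP_41ddaf_co.H50
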