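import Pool.Agent.MP_41ddaf_co.H50.Data

namespace Pool.Agent.MP_41ddaf_co.H50

open Finset

theorem prod3_pert (a b c a' b' c' M η : ℝ) (hM : 0 ≤ M) (hη : 0 ≤ η)
    (hb : |b| ≤ M) (hc : |c| ≤ M) (ha' : |a'| ≤ M) (hb' : |b'| ≤ M)
    (da : |a - a'| ≤ η) (db : |b - b'| ≤ η) (dc : |c - c'| ≤ η) :
    |a * b * c - a' * b' * c'| ≤ 3 * (η * M * M) := by
  have e : a * b * c - a' * b' * c' = (a - a') * b * c + (b - b') * a' * c + (c - c') * a' * b' := by
    ring
  have h1 : |(a - a') * b * c| ≤ η * M * M := by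
    rw [abs_mul, abs_mul]; gcongr
  have h2 : |(b - b') * a' * c| ≤ η * M * M := by
    rw [abs_mul, abs_mul]; gcongr
  have h3 : |(c - c') * a' * b'| ≤ η * M * M := by
    rw [abs_mul, abs_mul]; gcongr
  rw [e]
  have := abs_add_three ((a - a') * b * c) ((b - b') * a' * c) ((c - c') * a' * b')
  linarith

theorem det3_pert (u v w u' v' w' : Fin 3 → ℝ) (M η : ℝ) (hM : 0 ≤ M) (hη : 0 ≤ η)
    (hv : ∀ k, |v k| ≤ M) (hw : ∀ k, |w k| ≤ M) (hu' : ∀ k, |u' k| ≤ M) (hv' : ∀ k, |v' k| ≤ M)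
    (du : ∀ k, |u k - u' k| ≤ η) (dv : ∀ k, |v k - v' k| ≤ η) (dw : ∀ k, |w k - w' k| ≤ η) :
    |det3 u v w - det3 u' v' w'| ≤ 18 * (η * M * M) := by
  have h := fun i j k => abs_le.1 (prod3_pert (u i) (v j) (w k) (u' i) (v' j) (w' k) M η hM hη
    (hv j) (hw k) (hu' i) (hv' j) (du i) (dv j) (dw k))
  have h1 := h 0 1 2
  have h2 := h 0 2 1
  have h3 := h 1 0 2
  have h4 := h 1 2 0
  have h5 := h 2 0 1
  have h6 := h 2 1 0
  simp only [det3]
  rw [abs_le]
  constructor <;> linarith [h1.1, h1.2, h2.1, h2.2, h3.1, h3.2, h4.1, h4.2, h5.1, h5.2, h6.1, h6.2]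

theorem exists_points : ∃ p : Fin 9 → Fin 3 → ℝ, (∀ v k, |p v k - X0 v k| ≤ 10) ∧
    ∀ e, ∑ k, (p (src e) k - p (tgt e) k) ^ 2 = len e * 10000000000 := by
  have := exists_sol (fun v k => (X0 v k : ℝ)) (fun v k e => (B0 v k e : ℝ) / 1000000000) src tgt
    (fun e => (len e : ℝ) * 10000000000) (1 / 100000) 1000000 (by norm_num) (by norm_num)
    ?_ ?_ (by norm_num) ?_
  · obtain ⟨p, h1, h2⟩ := this
    refine ⟨p, fun v k => ?_, h2⟩
    have := h1 v k
    norm_num at this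
    exact this
  · intro v k
    have h : ((∑ e, |B0 v k e| : ℤ) : ℝ) ≤ ((10000 : ℤ) : ℝ) := Int.cast_le.2 (chk_N v k)
    push_cast at h
    simp only [abs_div]
    rw [← Finset.sum_div, div_le_iff₀ (by norm_num)]
    norm_num
    exact h
  · intro e
    have h : ((∑ e', |2 * (∑ k, (X0 (src e) k - X0 (tgt e) k) *
      (B0 (src e) k e' - B0 (tgt e) k e')) - (if e = e' then 1000000000 else 0)| : ℤ) : ℝ) ≤
      ((250000000 : ℤ) : ℝ) := Int.cast_le.2 (chk_J e)
    push_cast at h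
    have e1 : ∀ e', |2 * (∑ k, ((X0 (src e) k : ℝ) - X0 (tgt e) k) *
        ((B0 (src e) k e' : ℝ) / 1000000000 - (B0 (tgt e) k e' : ℝ) / 1000000000)) -
        (if e = e' then 1 else 0)| = |2 * (∑ k, ((X0 (src e) k : ℝ) - X0 (tgt e) k) *
        ((B0 (src e) k e' : ℝ) - B0 (tgt e) k e')) - (if e = e' then 1000000000 else 0)| /
        1000000000 := by
      intro e'
      have : (1000000000 : ℝ) = |1000000000| := by norm_num
      rw [eq_div_iff (by norm_num)]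
      conv_lhs => rw [this, ← abs_mul, ← this]
      congr 1
      simp only [Fin.sum_univ_three]
      split_ifs <;> ring
    simp only [e1]
    rw [← Finset.sum_div, div_le_iff₀ (by norm_num)]
    linarith
  · intro e
    have h : ((|len e * 10000000000 - ∑ k, (X0 (src e) k - X0 (tgt e) k) ^ 2| : ℤ) : ℝ) ≤
      ((500000 : ℤ) : ℝ) := Int.cast_le.2 (chk_r e)
    push_cast at h
    norm_num
    exact h

theorem main : ∃ p : Fin 9 → E3,
    (interior (convexHull ℝ (Set.range p))).Nonempty ∧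
    (∀ F G : Set E3,
      (∃ l : E3 →L[ℝ] ℝ, F = {x | x ∈ convexHull ℝ (Set.range p) ∧
        ∀ y ∈ convexHull ℝ (Set.range p), l y ≤ l x}) →
      Module.finrank ℝ (vectorSpan ℝ F) = 2 →
      (∃ l : E3 →L[ℝ] ℝ, G = {x | x ∈ convexHull ℝ (Set.range p) ∧
        ∀ y ∈ convexHull ℝ (Set.range p), l y ≤ l x}) →
      Module.finrank ℝ (vectorSpan ℝ G) = 2 →
      ∃ φ : E3 ≃ᵢ E3, φ '' F = G) ∧
    ∀ φ : E3 ≃ᵢ E3, φ '' convexHull ℝ (Set.range p) = convexHull ℝ (Set.range p) →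
      φ = IsometryEquiv.refl E3 := by
  obtain ⟨q, hq, hlen⟩ := exists_points
  let p : Fin 9 → E3 := fun i => WithLp.toLp 2 (q i)
  have hd : ∀ i j k, |(q i k - q j k) - ((dX i j k : ℤ) : ℝ)| ≤ 20 := by
    intro i j k
    have h1 := abs_le.1 (hq i k)
    have h2 := abs_le.1 (hq j k)
    simp only [dX]
    push_cast
    rw [abs_le]
    constructor <;> linarith [h1.1, h1.2, h2.1, h2.2]
  have hM0 : ∀ i j k, |((dX i j k : ℤ) : ℝ)| ≤ 499980 := by
    intro i j k
    have h : ((|X0 i k - X0 j k| : ℤ) : ℝ) ≤ ((499980 : ℤ) : ℝ) := Int.cast_le.2 (chk_M i j k)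
    simp only [dX]
    push_cast at h ⊢
    exact h
  have hM1 : ∀ i j k, |((dX i j k : ℤ) : ℝ)| ≤ 500000 := fun i j k => (hM0 i j k).trans (by norm_num)
  have hM : ∀ i j k, |q i k - q j k| ≤ 500000 := by
    intro i j k
    have h1 := abs_le.1 (hd i j k)
    have h2 := abs_le.1 (hM0 i j k)
    rw [abs_le]
    constructor <;> linarith [h1.1, h1.2, h2.1, h2.2]
  have hdet : ∀ i j k m, |detE (p j - p i) (p k - p i) (p m - p i) - (D0 i j k m : ℝ)| ≤
      90000000000000 := by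
    intro i j k m
    have := det3_pert (fun t => q j t - q i t) (fun t => q k t - q i t) (fun t => q m t - q i t)
      (fun t => (dX j i t : ℝ)) (fun t => (dX k i t : ℝ)) (fun t => (dX m i t : ℝ)) 500000 20
      (by norm_num) (by norm_num) (hM k i) (hM m i) (hM1 j i) (hM1 k i) (hd j i) (hd k i) (hd m i)
    have e1 : (D0 i j k m : ℝ) = det3 (fun t => (dX j i t : ℝ)) (fun t => (dX k i t : ℝ))
        (fun t => (dX m i t : ℝ)) := by
      simp only [D0, det3]
      push_cast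
      ring
    have e2 : detE (p j - p i) (p k - p i) (p m - p i) = det3 (fun t => q j t - q i t)
        (fun t => q k t - q i t) (fun t => q m t - q i t) := rfl
    rw [e1, e2]
    norm_num at this ⊢
    exact this
  have hdist : ∀ i j, dist (p i) (p j) ^ 2 = ∑ k, (q i k - q j k) ^ 2 := by
    intro i j
    rw [EuclideanSpace.dist_eq, Real.sq_sqrt (Finset.sum_nonneg fun _ _ => sq_nonneg _)]
    refine Finset.sum_congr rfl fun k _ => ?_
    rw [Real.dist_eq, sq_abs]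
  have hQ : ∀ i j, |dist (p i) (p j) ^ 2 - (Q0 i j : ℝ)| ≤ 60000000 := by
    intro i j
    have e1 : (Q0 i j : ℝ) = ∑ k, ((dX i j k : ℤ) : ℝ) ^ 2 := by
      simp only [Q0, dX]
      push_cast
      rfl
    have b : ∀ k, |(q i k - q j k) ^ 2 - ((dX i j k : ℤ) : ℝ) ^ 2| ≤ 20 * 1000000 := by
      intro k
      rw [sq_sub_sq, mul_comm, abs_mul]
      refine mul_le_mul (hd i j k) ((abs_add_le _ _).trans ?_) (abs_nonneg _) (by norm_num)
      linarith [hM i j k, hM1 i j k]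
    rw [hdist, e1, Fin.sum_univ_three, Fin.sum_univ_three, abs_le]
    have b0 := abs_le.1 (b 0)
    have b1 := abs_le.1 (b 1)
    have b2 := abs_le.1 (b 2)
    constructor <;> linarith [b0.1, b0.2, b1.1, b1.2, b2.1, b2.2]
  have hedge : ∀ (a b : Fin 9) (c : ℤ),
      (∃ e, len e = c ∧ ((src e = a ∧ tgt e = b) ∨ (src e = b ∧ tgt e = a))) →
      dist (p a) (p b) = √(c * 10000000000) := by
    rintro a b c ⟨e, rfl, h⟩
    rw [← hlen e, ← hdist, Real.sqrt_sq dist_nonneg]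
    rcases h with ⟨rfl, rfl⟩ | ⟨rfl, rfl⟩
    · rfl
    · exact dist_comm _ _
  refine ⟨p, main_geom p f1 f2 f3 0 2 (by decide) ?_ ?_ ?_ ?_ ?_⟩
  · intro f m h1 h2 h3 h0
    have a := hdet (f1 f) (f2 f) (f3 f) m
    have b : ((100000000000000 : ℤ) : ℝ) < ((|D0 (f1 f) (f2 f) (f3 f) m| : ℤ) : ℝ) :=
      Int.cast_lt.2 (chk_face f m h1 h2 h3)
    push_cast at b
    rw [h0, zero_sub, abs_neg] at a
    linarith
  · intro i j k hij hik hjk
    rcases chk_non i j k hij hik hjk with h | ⟨⟨m, hm⟩, ⟨m', hm'⟩⟩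
    · exact Or.inl h
    · refine Or.inr ⟨⟨m, ?_⟩, ⟨m', ?_⟩⟩
      · have a := abs_le.1 (hdet i j k m)
        have b : ((100000000000000 : ℤ) : ℝ) < ((D0 i j k m : ℤ) : ℝ) := Int.cast_lt.2 hm
        push_cast at b
        linarith [a.1]
      · have a := abs_le.1 (hdet i j k m')
        have b : ((D0 i j k m' : ℤ) : ℝ) < ((-100000000000000 : ℤ) : ℝ) := Int.cast_lt.2 hm'
        push_cast at b
        linarith [a.2]
  · intro f g
    refine ⟨?_, ?_, ?_⟩
    · rw [hedge _ _ _ (chk_edge f).1, hedge _ _ _ (chk_edge g).1]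
    · rw [hedge _ _ _ (chk_edge f).2.1, hedge _ _ _ (chk_edge g).2.1]
    · rw [hedge _ _ _ (chk_edge f).2.2, hedge _ _ _ (chk_edge g).2.2]
  · intro i
    refine ⟨(X0 i 0 : ℝ) • EuclideanSpace.proj 0 + (X0 i 1 : ℝ) • EuclideanSpace.proj 1 +
      (X0 i 2 : ℝ) • EuclideanSpace.proj 2, fun j hj => ?_⟩
    have b : ((1000000000 : ℤ) : ℝ) < ((∑ k, X0 i k * (X0 i k - X0 j k) : ℤ) : ℝ) :=
      Int.cast_lt.2 (chk_exp i j hj)
    have c : ∀ k, |(X0 i k : ℝ) * ((q i k - q j k) - ((dX i j k : ℤ) : ℝ))| ≤ 500000 * 20 := by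
      intro k
      have h : ((|X0 i k| : ℤ) : ℝ) ≤ ((500000 : ℤ) : ℝ) := Int.cast_le.2 (chk_X i k)
      push_cast at h
      rw [abs_mul]
      exact mul_le_mul h (hd i j k) (abs_nonneg _) (by norm_num)
    have c0 := abs_le.1 (c 0)
    have c1 := abs_le.1 (c 1)
    have c2 := abs_le.1 (c 2)
    simp only [dX] at c0 c1 c2
    rw [Fin.sum_univ_three] at b
    push_cast at b c0 c1 c2
    simp only [add_apply, smul_apply,
      EuclideanSpace.coe_proj, smul_eq_mul, p]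
    nlinarith [c0.1, c1.1, c2.1]
  · intro i i' hi
    obtain ⟨j, hj⟩ := chk_sig i i' hi
    refine ⟨j, fun j' h => ?_⟩
    have b : ((1000000000 : ℤ) : ℝ) < ((|Q0 i' j' - Q0 i j| : ℤ) : ℝ) := Int.cast_lt.2 (hj j')
    push_cast at b
    have a1 := abs_le.1 (hQ i' j')
    have a2 := abs_le.1 (hQ i j)
    rw [h] at a1
    have : |(Q0 i' j' : ℝ) - Q0 i j| ≤ 120000000 := by
      rw [abs_le]
      constructor <;> linarith [a1.1, a1.2, a2.1, a2.2]
    linarith

end Pool.Agent.MP_41ddaf_co.H50
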